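import Pool.Agent.H55.GW.Targets2

/-! Module BW of wq_modules (MP_97b7aa_co): bounded branch-width. -/

set_option autoImplicit false

open Pool.Agent.H55.GW

namespace Pool.Agent.H87.GW

theorem fEX_mono : Monotone fEX := by
  refine monotone_nat_of_le_succ fun n => ?_
  show fEX n ≤ 9 * fEX n + 2
  omega

/-- the rank in natural numbers -/
theorem rk_cast {M : Matroid ℕ} (hE : M.E.Finite) (X : Set ℕ) : ((rk M X : ℕ) : ℕ∞) = M.eRk X := by
  have h1 : M.eRk X ≤ M.E.encard := by
    rw [← M.eRk_inter_ground X]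
    exact (M.eRk_le_encard _).trans (Set.encard_le_encard Set.inter_subset_right)
  have h2 : M.eRk X ≠ ⊤ := by
    intro h
    rw [h, top_le_iff, Set.encard_eq_top_iff] at h1
    exact h1 hE
  exact ENat.coe_toNat h2

/-- the dual rank -/
theorem rk_dual {M : Matroid ℕ} (hE : M.E.Finite) (X : Set ℕ) (hX : X ⊆ M.E) :
    rk M.dual X + rk M M.E = rk M (M.E \ X) + X.ncard := by
  have h := M.eRk_dual_add_eRank X hX
  rw [← Matroid.eRk_ground, ← rk_cast hE, ← rk_cast (M := M.dual) hE, ← rk_cast hE,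
    ← (hE.subset hX).cast_ncard_eq] at h
  exact_mod_cast h

/-- the connectivity function is invariant under duality -/
theorem lam_dual {M : Matroid ℕ} (hE : M.E.Finite) (X : Set ℕ) (hX : X ⊆ M.E) :
    lam M.dual X = lam M X := by
  have h1 := rk_dual hE X hX
  have h2 := rk_dual hE (M.E \ X) Set.sdiff_subset
  have h3 := rk_dual hE M.E subset_rfl
  rw [Set.sdiff_sdiff_cancel_left hX] at h2
  rw [Set.sdiff_self] at h3
  have h4 : rk M ∅ = 0 := by
    unfold rk
    simp
  have h5 : X.ncard + (M.E \ X).ncard = M.E.ncard := by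
    rw [add_comm]
    exact Set.ncard_sdiff_add_ncard_of_subset hX hE
  have h6 : rk M X ≤ rk M M.E := by
    have := M.eRk_mono hX
    rw [← rk_cast hE, ← rk_cast hE] at this
    exact_mod_cast this
  have h7 : rk M (M.E \ X) ≤ rk M M.E := by
    have := M.eRk_mono (Set.sdiff_subset : M.E \ X ⊆ M.E)
    rw [← rk_cast hE, ← rk_cast hE] at this
    exact_mod_cast this
  unfold lam
  show rk M.dual X + rk M.dual (M.E \ X) - rk M.dual M.E = _
  have h4' : rk M (∅ : Set ℕ) = 0 := h4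
  omega

/-- if `f` is bounded by `k` every nonempty finite set is `k`-branched -/
theorem brd_of_le {E : Set ℕ} {f : Set ℕ → ℕ} {k : ℕ} (h : ∀ X ⊆ E, f X ≤ k) (s : Finset ℕ)
    (hs : s.Nonempty) (hsE : (s : Set ℕ) ⊆ E) : Brd f k (s : Set ℕ) := by
  classical
  induction hs using Finset.Nonempty.cons_induction with
  | singleton a =>
    refine ⟨BT.leaf a, ?_, ?_⟩
    · show f {a} ≤ k
      refine h _ ?_
      rwa [Finset.coe_singleton] at hsE
    · rw [Finset.coe_singleton]
      rfl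
  | cons a s ha hs ih =>
    rw [Finset.coe_cons] at hsE ⊢
    obtain ⟨t, ht, hts⟩ := ih ((Set.subset_insert _ _).trans hsE)
    refine ⟨BT.node (BT.leaf a) t, ⟨?_, ?_, ?_, ht⟩, ?_⟩
    · show f ({a} ∪ t.set) ≤ k
      rw [hts]
      exact h _ hsE
    · show Disjoint {a} t.set
      rw [hts, Set.disjoint_singleton_left]
      exact ha
    · show f {a} ≤ k
      exact h _ ((Set.singleton_subset_iff.2 (Set.mem_insert _ _)).trans hsE)
    · show {a} ∪ t.set = _
      rw [hts]
      rfl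

theorem bw (hGF : T_GF) (hUTC : T_UTC) (hEX : T_EX) (hBWC : T_BWC) (hLMS : T_LMS)
    (hGMIN : T_GMIN) (hDUR : T_DUR) (hDUG : T_DUG) : T_BW := by
  intro q hq
  obtain ⟨φ, hφ, hGF⟩ := hGF q hq
  obtain ⟨Γ, hΓ⟩ := hUTC q hq
  obtain ⟨c, hc⟩ := hBWC q hq φ hφ (fEX Γ + 1)
  obtain ⟨E₀, hE₀⟩ := hc (fEX c)
  refine ⟨max (max Γ c) E₀, ?_⟩
  set k := max (max Γ c) E₀ with hk
  have hkΓ : Γ ≤ k := (le_max_left _ _).trans (le_max_left _ _)
  have hkc : c ≤ k := (le_max_right _ _).trans (le_max_left _ _)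
  have hkE : E₀ ≤ k := le_max_right _ _
  have main : ∀ n : ℕ, ∀ M : Matroid ℕ, Gam q M → M.E.Nonempty → M.E.ncard = n →
      Brd (lam M) k M.E := by
    intro n
    induction n using Nat.strong_induction_on with
    | _ n ih =>
      intro M hM hne hn
      by_contra hnot
      have hfin := hM.1
      have hlt : ∀ e ∈ M.E, (M.E \ {e}).ncard < n := by
        intro e he
        rw [← hn]
        exact Set.ncard_sdiff_singleton_lt_of_mem he hfin
      have hmin : ∀ e ∈ M.E, (M.E \ {e}).Nonempty →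
          Brd (lam (M.delete {e})) k (M.E \ {e}) ∧ Brd (lam (M.contract {e})) k (M.E \ {e}) := by
        intro e he hne'
        refine ⟨ih _ (hlt e he) (M.delete {e}) (hGMIN q M _ hM ⟨∅, {e}, by simp⟩) hne' rfl,
          ih _ (hlt e he) (M.contract {e}) (hGMIN q M _ hM ⟨{e}, ∅, by simp⟩) hne' rfl⟩
      have hex := hEX M k hfin hne hnot hmin
      obtain ⟨F, hF, hFm⟩ := hGF M hM
      -- consequence of a small separation
      have hsmall : ∀ Z ⊆ M.E, ∀ P₁ P₂ : Set ℕ, P₁ ⊆ Z → P₂ ⊆ M.E → Disjoint P₂ Z →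
          lam M Z ≤ Γ → P₁.ncard < fEX Γ + 1 ∨ P₂.ncard < fEX Γ + 1 := by
        intro Z hZ P₁ P₂ h1 h2 h3 h4
        rcases hex Z hZ (h4.trans hkΓ) with h | h
        · left
          have h5 := Set.ncard_le_ncard h1 (hfin.subset hZ)
          have h6 := fEX_mono h4
          omega
        · right
          have h7 : P₂ ⊆ M.E \ Z := fun x hx => ⟨h2 hx, Set.disjoint_left.1 h3 hx⟩
          have h5 := Set.ncard_le_ncard h7 (hfin.subset Set.sdiff_subset)
          have h6 := fEX_mono h4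
          omega
      have hFE : M.E = (F.E : Set ℕ) := hF.1
      have hall : ∀ m, F.IsPM m → F.Exits m φ ∧ F.Feeds m φ ∧ F.Fan m ∧ F.CoFan m ∧
          NoRT F m (fEX Γ + 1) ∧ NoRT F.dual m (fEX Γ + 1) := by
        intro m hm
        obtain ⟨h1, h2, h3, h4⟩ := hFm m hm
        refine ⟨h1, h2, h3, h4, ?_, ?_⟩
        · intro a₁ a₂ V₁ V₂ P₁ P₂ hR
          obtain ⟨Z, hZ, hZ1, hZ2, hZ3⟩ := hΓ M F m a₁ a₂ V₁ V₂ P₁ P₂ hM hF hm hR
          refine hsmall Z hZ P₁ P₂ hZ1 ?_ hZ2 hZ3
          rw [hFE]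
          exact hR.snk₂.trans Frame.base_subset
        · intro a₁ a₂ V₁ V₂ P₁ P₂ hR
          obtain ⟨Z, hZ, hZ1, hZ2, hZ3⟩ := hΓ M.dual F.dual m a₁ a₂ V₁ V₂ P₁ P₂
            (hDUG q M hM) (hDUR F M hF) (Frame.dual_isPM.2 hm) hR
          have hZ' : Z ⊆ M.E := hZ
          rw [lam_dual hfin Z hZ'] at hZ3
          refine hsmall Z hZ' P₁ P₂ hZ1 ?_ hZ2 hZ3
          rw [hFE]
          exact hR.snk₂.trans (Frame.base_subset (F := F.dual))
      have hcard := hE₀ M F hM hF hall (by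
        intro X hX hXc
        rcases hex X hX (hXc.trans hkc) with h | h
        · exact Or.inl (h.trans (fEX_mono hXc))
        · exact Or.inr (h.trans (fEX_mono hXc)))
      have hlam : ∀ X ⊆ M.E, lam M X ≤ k := fun X hX =>
        (((hLMS M hfin).2.2.2.1 X hX).trans hcard).trans hkE
      apply hnot
      have h8 := brd_of_le hlam hfin.toFinset (by rwa [Set.Finite.toFinset_nonempty])
        (by rw [Set.Finite.coe_toFinset])
      rwa [Set.Finite.coe_toFinset] at h8
  intro M hM hne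
  exact main _ M hM hne rfl

end Pool.Agent.H87.GW
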