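import Pool.Agent.H55.GW.Targets2

/-! Modules REL, OT of wq_modules (MP_97b7aa_co). -/

set_option autoImplicit false

open Pool.Agent.H55.GW

namespace Pool.Agent.H87.GW

theorem relR_symm {F : Frame} {m : ℕ → Vx} {H : Finset ℕ} {r s : ℕ} (h : RelR F m H r s) :
    RelR F m H s r := ⟨h.1.symm, h.2.symm⟩

theorem rtg_symm {F : Frame} {m : ℕ → Vx} {H : Finset ℕ} {r s : ℕ}
    (h : Relation.ReflTransGen (RelR F m H) r s) : Relation.ReflTransGen (RelR F m H) s r := by
  induction h with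
  | refl => exact Relation.ReflTransGen.refl
  | tail _ h2 ih => exact Relation.ReflTransGen.head (relR_symm h2) ih

/-- the real elements attached to a vertex by walks -/
def cl (F : Frame) (m : ℕ → Vx) (H : Finset ℕ) : Vx → ℕ → Prop
  | Sum.inl r, r' => r' = r
  | Sum.inr v, r' => (Sum.inl r' ∈ F.src m ∧
      RIn (F.D m) (Sum.inr '' (H : Set ℕ))ᶜ (Sum.inl r') (Sum.inr v)) ∨
      (Sum.inl r' ∈ F.snk m ∧ RIn (F.D m) (Sum.inr '' (H : Set ℕ))ᶜ (Sum.inr v) (Sum.inl r'))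

theorem src_snk_ne {F : Frame} {m : ℕ → Vx} {s t : ℕ} (hs : (Sum.inl s : Vx) ∈ F.src m)
    (ht : (Sum.inl t : Vx) ∈ F.snk m) : s ≠ t := by
  rintro rfl
  obtain ⟨e, -, he, h⟩ := hs
  obtain ⟨e', he', h'⟩ := ht
  rw [Sum.inl.injEq] at h h'
  subst h
  subst h'
  exact he he'

theorem rel_st {F : Frame} {m : ℕ → Vx} {H : Finset ℕ} {s t : ℕ}
    (hs : (Sum.inl s : Vx) ∈ F.src m) (ht : (Sum.inl t : Vx) ∈ F.snk m)
    (h : RIn (F.D m) (Sum.inr '' (H : Set ℕ))ᶜ (Sum.inl s) (Sum.inl t)) : RelR F m H s t :=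
  ⟨src_snk_ne hs ht, Or.inl h⟩

theorem rel : T_REL := by
  intro F m hm H K hHK hyp r s hrs
  -- sources and sinks of internal vertices
  have hfeed : ∀ v ∈ F.V, v ∉ K → (∃ t : ℕ, (Sum.inl t : Vx) ∈ F.snk m ∧
      RIn (F.D m) (Sum.inr '' (H : Set ℕ))ᶜ (Sum.inr v) (Sum.inl t)) ∧
      ∃ s : ℕ, (Sum.inl s : Vx) ∈ F.src m ∧
        RIn (F.D m) (Sum.inr '' (H : Set ℕ))ᶜ (Sum.inl s) (Sum.inr v) := by
    intro v hv hvK
    obtain ⟨⟨t, ht, h1⟩, s, hs, h2⟩ := hyp v hv hvK
    obtain ⟨e, he, rfl⟩ := id ht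
    obtain ⟨e', he', he'', rfl⟩ := id hs
    exact ⟨⟨e, ht, h1⟩, e', hs, h2⟩
  -- elements of a class are joined
  have hcls : ∀ v ∈ F.V, v ∉ K → ∀ a b, cl F m H (Sum.inr v) a → cl F m H (Sum.inr v) b →
      Relation.ReflTransGen (RelR F m H) a b := by
    intro v hv hvK a b ha hb
    obtain ⟨⟨t, ht, h1⟩, s, hs, h2⟩ := hfeed v hv hvK
    rcases ha with ⟨ha1, ha2⟩ | ⟨ha1, ha2⟩ <;> rcases hb with ⟨hb1, hb2⟩ | ⟨hb1, hb2⟩
    · exact (Relation.ReflTransGen.single (rel_st ha1 ht (ha2.trans h1))).tail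
        (relR_symm (rel_st hb1 ht (hb2.trans h1)))
    · exact Relation.ReflTransGen.single (rel_st ha1 hb1 (ha2.trans hb2))
    · exact Relation.ReflTransGen.single (relR_symm (rel_st hb1 ha1 (hb2.trans ha2)))
    · exact (Relation.ReflTransGen.single (relR_symm (rel_st hs ha1 (h2.trans ha2)))).tail
        (rel_st hs hb1 (h2.trans hb2))
  have hmem : ∀ v : ℕ, (Sum.inr v : Vx) ∈ (Sum.inr '' (K : Set ℕ))ᶜ → v ∉ K := by
    intro v hv hK
    exact hv ⟨v, hK, rfl⟩
  have hH : ∀ v : ℕ, v ∉ K → (Sum.inr v : Vx) ∈ (Sum.inr '' (H : Set ℕ))ᶜ := by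
    rintro v hv ⟨w, hw, h⟩
    rw [Sum.inr.injEq] at h
    subst h
    exact hv (hHK hw)
  have hHe : ∀ e : ℕ, (Sum.inl e : Vx) ∈ (Sum.inr '' (H : Set ℕ))ᶜ := by
    rintro e ⟨w, -, h⟩
    exact Sum.inr_ne_inl h
  -- adjacent vertices have joined elements
  have hadj : ∀ x y : Vx, x ∈ (Sum.inr '' (K : Set ℕ))ᶜ → y ∈ (Sum.inr '' (K : Set ℕ))ᶜ →
      F.D m x y → ∃ a b, cl F m H x a ∧ cl F m H y b ∧
        Relation.ReflTransGen (RelR F m H) a b := by
    intro x y hx hy hxy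
    rcases x with e | u <;> rcases y with e' | v
    · exact absurd hxy (by simp [Frame.D])
    · have hsrc : (Sum.inl e : Vx) ∈ F.src m := ⟨e, Frame.att_E hxy.1, hxy.2, rfl⟩
      exact ⟨e, e, rfl, Or.inl ⟨hsrc, RIn.single hxy (hHe e) (hH v (hmem v hy))⟩,
        Relation.ReflTransGen.refl⟩
    · have hsnk : (Sum.inl e' : Vx) ∈ F.snk m := ⟨e', hxy.2, rfl⟩
      exact ⟨e', e', Or.inr ⟨hsnk, RIn.single hxy (hH u (hmem u hx)) (hHe e')⟩, rfl,
        Relation.ReflTransGen.refl⟩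
    · have hu : u ∈ F.V ∧ v ∈ F.V := by
        rcases hxy with ⟨h, -⟩ | ⟨h, -⟩
        · exact ⟨Frame.adj_left h, Frame.adj_right h⟩
        · exact ⟨Frame.adj_right h, Frame.adj_left h⟩
      obtain ⟨-, s, hs, h2⟩ := hfeed u hu.1 (hmem u hx)
      obtain ⟨⟨t, ht, h1⟩, -⟩ := hfeed v hu.2 (hmem v hy)
      exact ⟨s, t, Or.inl ⟨hs, h2⟩, Or.inr ⟨ht, h1⟩, Relation.ReflTransGen.single
        (rel_st hs ht ((h2.tail hxy (hH v (hmem v hy))).trans h1))⟩
  -- induction along the walk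
  have key : ∀ a, cl F m H (Sum.inl s) a → Relation.ReflTransGen (RelR F m H) r a := by
    refine RIn.induct (p := fun w => ∀ a, cl F m H w a → Relation.ReflTransGen (RelR F m H) r a)
      hrs ?_ ?_
    · intro a ha
      rw [show a = r from ha]
    · intro x y hx hy hG ih c hc
      obtain ⟨a, b, ha, hb, hab⟩ : ∃ a b, cl F m H x a ∧ cl F m H y b ∧
          Relation.ReflTransGen (RelR F m H) a b := by
        rcases Frame.G_D hm hG with h | h
        · exact hadj x y hx hy h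
        · obtain ⟨a, b, ha, hb, hab⟩ := hadj y x hy hx h
          exact ⟨b, a, hb, ha, rtg_symm hab⟩
      have h1 : Relation.ReflTransGen (RelR F m H) r b := (ih a ha).trans hab
      rcases y with e | v
      · rw [show c = e from hc, ← show b = e from hb]
        exact h1
      · have hv : v ∈ F.V := by
          rcases x with e | u
          · exact Frame.att_V hG
          · rcases hG with h | h
            · exact Frame.adj_right h
            · exact Frame.adj_left h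
        exact h1.trans (hcls v hv (hmem v hy) b c hb hc)
  exact key s rfl

/-! ## OT -/

/-- walks of length `n` from `a` whose vertices before the last one are in `{a} ∪ V` -/
def rch (D : Vx → Vx → Prop) (a : Vx) (V : Set Vx) : ℕ → Vx → Prop
  | 0, v => v = a
  | n + 1, v => ∃ u, rch D a V n u ∧ (u = a ∨ u ∈ V) ∧ D u v

theorem exists_par (D : Vx → Vx → Prop) (a : Vx) (V : Set Vx) (v : Vx) :
    ∃ u : Vx, (v = a → u = a) ∧ (v ≠ a → (∃ n, rch D a V n v) →
      (u = a ∨ u ∈ V) ∧ D u v ∧ ∀ n, rch D a V n v → ∃ k, k < n ∧ rch D a V k u) := by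
  classical
  by_cases hv : v = a
  · exact ⟨a, fun _ => rfl, fun h => absurd hv h⟩
  · by_cases hr : ∃ n, rch D a V n v
    · have h0 := Nat.find_spec hr
      set n₀ := Nat.find hr with hn
      have hmin : ∀ n, rch D a V n v → n₀ ≤ n := fun n h => Nat.find_min' hr h
      cases hn0 : n₀ with
      | zero =>
        rw [hn0] at h0
        exact absurd h0 hv
      | succ k =>
        rw [hn0] at h0 hmin
        obtain ⟨u, h1, h2, h3⟩ := h0
        refine ⟨u, fun h => absurd h hv, fun _ _ => ⟨h2, h3, fun n hn => ⟨k, ?_, h1⟩⟩⟩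
        have := hmin n hn
        omega
    · exact ⟨a, fun _ => rfl, fun _ h => absurd h hr⟩

theorem ot : T_OT := by
  intro D a V P _ _ haV haP hVP hwalk
  choose par hpar1 hpar2 using exists_par D a V
  have hfix : par a = a := hpar1 a rfl
  -- elements of `P` are reached
  have hP : ∀ p ∈ P, ∃ n, rch D a V n p := by
    intro p hp
    have h := RIn.induct (p := fun w => (∃ n, rch D a V n w) ∨ ∃ n, rch D a V n p) (hwalk p hp)
      (Or.inl ⟨0, rfl⟩) (by
        intro u w hu _ huw ih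
        rcases ih with ⟨n, hn⟩ | h
        · rcases hu with (rfl | rfl) | hu
          · exact Or.inl ⟨n + 1, _, hn, Or.inl rfl, huw⟩
          · exact Or.inr ⟨n, hn⟩
          · exact Or.inl ⟨n + 1, u, hn, Or.inr hu, huw⟩
        · exact Or.inr h)
    rcases h with h | h <;> exact h
  -- the parent of a reached vertex is reached
  have hreach : ∀ v, (∃ n, rch D a V n v) → ∃ n, rch D a V n (par v) := by
    intro v hv
    by_cases hva : v = a
    · rw [hva, hfix]
      exact ⟨0, rfl⟩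
    · obtain ⟨-, -, h3⟩ := hpar2 v hva hv
      obtain ⟨n, hn⟩ := hv
      obtain ⟨k, -, hk⟩ := h3 n hn
      exact ⟨k, hk⟩
  have hreachk : ∀ k v, (∃ n, rch D a V n v) → ∃ n, rch D a V n (par^[k] v) := by
    intro k
    induction k with
    | zero => intro v hv; exact hv
    | succ k ih =>
      intro v hv
      rw [Function.iterate_succ_apply]
      exact ih _ (hreach v hv)
  -- the root
  have hroot : ∀ n v, (∃ j ≤ n, rch D a V j v) → ∃ k, par^[k] v = a := by
    intro n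
    induction n with
    | zero =>
      rintro v ⟨j, hj, h⟩
      rw [Nat.le_zero.1 hj] at h
      exact ⟨0, h⟩
    | succ n ih =>
      rintro v ⟨j, hj, h⟩
      by_cases hva : v = a
      · exact ⟨0, hva⟩
      · obtain ⟨-, -, h3⟩ := hpar2 v hva ⟨j, h⟩
        obtain ⟨k, hk, hk'⟩ := h3 j h
        obtain ⟨i, hi⟩ := ih (par v) ⟨k, by omega, hk'⟩
        exact ⟨i + 1, by rw [Function.iterate_succ_apply]; exact hi⟩
  set N : Set Vx := {v | v ∈ V ∧ ∃ p ∈ P, ∃ k, par^[k] p = v} with hN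
  have hNr : ∀ v, (v ∈ N ∨ v ∈ P) → ∃ n, rch D a V n v := by
    rintro v (⟨-, p, hp, k, rfl⟩ | hv)
    · exact hreachk k p (hP p hp)
    · exact hP v hv
  have hNa : ∀ v, (v ∈ N ∨ v ∈ P) → v ≠ a := by
    rintro v (⟨hv, -⟩ | hv) rfl
    · exact haV hv
    · exact haP hv
  refine ⟨N, par, fun v hv => hv.1, ⟨fun h => haV h.1, haP⟩, ?_, hfix, ?_, ?_, ?_⟩
  · exact hVP.mono_left fun v hv => hv.1
  · intro v hv
    obtain ⟨h1, h2, -⟩ := hpar2 v (hNa v hv) (hNr v hv)
    refine ⟨?_, h2⟩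
    rcases h1 with h1 | h1
    · exact Or.inr h1
    · refine Or.inl ⟨h1, ?_⟩
      rcases hv with ⟨-, p, hp, k, rfl⟩ | hv
      · exact ⟨p, hp, k + 1, Function.iterate_succ_apply' par k p⟩
      · exact ⟨v, hv, 1, rfl⟩
  · intro v hv
    obtain ⟨n, hn⟩ := hNr v hv
    exact hroot n v ⟨n, le_rfl, hn⟩
  · rintro v ⟨-, h⟩
    exact h

end Pool.Agent.H87.GW
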