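import Pool.Agent.H55.GW.Targets3

/-!
# Board wq, module CHN: a linked chain of separations gives a chain of levels
-/

set_option autoImplicit false

namespace Pool.Agent.H87.GW.CHN

open Pool.Agent.H55.GW
open Pool.Agent.H55.GW.Frame

/-- the level of `X` -/
def Lv (F : Frame) (m : ℕ → Vx) (X : Set ℕ) : Set Vx :=
  {x | x ∈ F.uni ∧ ((∃ b ∈ F.base m, b ∉ X ∧ RIn (F.D m) Set.univ x (Sum.inl b)) ∨
    (∃ e ∈ F.E, e ∉ F.base m ∧ e ∉ X ∧ x = Sum.inl e) ∨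
    ∃ e ∈ F.E, e ∉ F.base m ∧ e ∉ X ∧ ∃ v ∈ F.V, F.isP v ∧ m v = Sum.inl e ∧ x = Sum.inr v)}

variable {F : Frame} {m : ℕ → Vx}

theorem lv_mono {X Y : Set ℕ} (h : Y ⊆ X) : Lv F m X ⊆ Lv F m Y := by
  rintro x ⟨h1, ⟨b, hb, hbX, h2⟩ | ⟨e, he, heB, heX, h2⟩ | ⟨e, he, heB, heX, v, h2⟩⟩
  · exact ⟨h1, Or.inl ⟨b, hb, fun h' => hbX (h h'), h2⟩⟩
  · exact ⟨h1, Or.inr (Or.inl ⟨e, he, heB, fun h' => heX (h h'), h2⟩)⟩
  · exact ⟨h1, Or.inr (Or.inr ⟨e, he, heB, fun h' => heX (h h'), v, h2⟩)⟩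

theorem lv_inc (hm : F.IsPM m) {X : Set ℕ} {x y : Vx} (h : F.D m x y) (hy : y ∈ Lv F m X) :
    x ∈ Lv F m X := by
  obtain ⟨h1, ⟨b, hb, hbX, h2⟩ | ⟨e, he, heB, heX, h2⟩ | ⟨e, he, heB, heX, v, hv, hvP, hmv, h2⟩⟩ :=
    hy
  · exact ⟨(D_uni h).1, Or.inl ⟨b, hb, hbX, RIn.head h (Set.mem_univ _) h2⟩⟩
  · subst h2
    exact absurd h (no_in_src heB x)
  · subst h2
    have hx := in_P hm hvP h
    rw [hmv] at hx
    subst hx
    exact ⟨(D_uni h).1, Or.inr (Or.inl ⟨e, he, heB, heX, rfl⟩)⟩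

theorem lv_inl {X : Set ℕ}
    (ha : ∀ e ∈ F.E, e ∉ F.base m → e ∈ X → ∀ b ∈ F.base m, b ∉ X →
      ¬ RIn (F.D m) Set.univ (Sum.inl e) (Sum.inl b)) {e : ℕ} (he : e ∈ F.E) :
    ((Sum.inl e : Vx) ∈ Lv F m X ↔ e ∉ X) := by
  constructor
  · rintro ⟨h1, ⟨b, hb, hbX, h2⟩ | ⟨e', he', heB, heX, h2⟩ | ⟨e', he', heB, heX, v, hv, hvP, hmv, h2⟩⟩
    · by_cases heB : e ∈ F.base m
      · rcases h2.cases_head with h | ⟨z, h, -⟩
        · rw [Sum.inl.injEq] at h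
          rwa [h]
        · exact absurd h (no_out_snk heB z)
      · exact fun heX => ha e he heB heX b hb hbX h2
    · rw [Sum.inl.injEq] at h2
      rwa [h2]
    · exact absurd h2 (by simp)
  · intro heX
    refine ⟨Or.inr ⟨e, he, rfl⟩, ?_⟩
    by_cases heB : e ∈ F.base m
    · exact Or.inl ⟨e, heB, heX, RIn.refl (Set.mem_univ _)⟩
    · exact Or.inr (Or.inl ⟨e, he, heB, heX, rfl⟩)

theorem lv_hub (hm : F.IsPM m) {X : Set ℕ}
    (ha : ∀ e ∈ F.E, e ∉ F.base m → e ∈ X → ∀ b ∈ F.base m, b ∉ X →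
      ¬ RIn (F.D m) Set.univ (Sum.inl e) (Sum.inl b)) {v : ℕ} (hv : v ∈ F.V) :
    ((Sum.inr v : Vx) ∈ Lv F m X ↔ m v ∈ Lv F m X) := by
  by_cases hP : F.isP v
  · refine ⟨fun h => lv_inc hm (D_mate_P hm hv hP) h, fun h => ?_⟩
    rcases hm.cases hv with ⟨e, he, h1⟩ | ⟨u, hu, huV, hu2, hu3, hu4⟩
    · rw [he] at h
      have heE := att_E h1
      have hX := (lv_inl ha heE).1 h
      have heB : e ∉ F.base m := fun h' => ((mem_base_iff h1).1 h').1 hP he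
      exact ⟨Or.inl ⟨v, hv, rfl⟩, Or.inr (Or.inr ⟨e, heE, heB, hX, v, hv, hP, he, rfl⟩)⟩
    · rw [hu] at h
      have huP : ¬ F.isP u := hu3.1 hP
      obtain ⟨h1, ⟨b, hb, hbX, h2⟩ | ⟨e', he', heB, heX, h2⟩ |
        ⟨e', he', heB, heX, w, hw, hwP, hmw, h2⟩⟩ := h
      · rcases h2.cases_head with h | ⟨z, h, -, h3⟩
        · exact absurd h (by simp)
        · have hz := out_Q hm huP h
          rw [hu2] at hz
          subst hz
          exact ⟨Or.inl ⟨v, hv, rfl⟩, Or.inl ⟨b, hb, hbX, h3⟩⟩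
      · exact absurd h2 (by simp)
      · rw [Sum.inr.injEq] at h2
        subst h2
        exact absurd hwP huP
  · refine ⟨fun h => ?_, fun h => lv_inc hm (D_mate_Q hm hv hP) h⟩
    obtain ⟨h1, ⟨b, hb, hbX, h2⟩ | ⟨e', he', heB, heX, h2⟩ |
      ⟨e', he', heB, heX, w, hw, hwP, hmw, h2⟩⟩ := h
    · rcases h2.cases_head with h | ⟨z, h, -, h3⟩
      · exact absurd h (by simp)
      · have hz := out_Q hm hP h
        subst hz
        exact ⟨(D_uni h).2, Or.inl ⟨b, hb, hbX, h3⟩⟩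
    · exact absurd h2 (by simp)
    · rw [Sum.inr.injEq] at h2
      subst h2
      exact absurd hwP hP

/-- one source in `X` reaching one sink outside `X` gives an exchange -/
theorem reach_exchange (hLB : T_LB) {M : Matroid ℕ} (hR : F.Rep M) (hm : F.IsPM m) {e b : ℕ}
    (he : e ∈ F.E) (heB : e ∉ F.base m) (hb : b ∈ F.base m)
    (h : RIn (F.D m) Set.univ (Sum.inl e) (Sum.inl b)) :
    M.IsBase (insert e (F.base m \ {b})) := by
  have h1 := (hLB F m hm {e} {b} (by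
      rintro x hx
      rw [Set.mem_singleton_iff] at hx
      subst hx
      exact ⟨he, heB⟩)
    (by
      rintro x hx
      rw [Set.mem_singleton_iff] at hx
      subst hx
      exact hb) (by rw [Set.ncard_singleton, Set.ncard_singleton])).2 (by
      rw [Set.ncard_singleton, Set.image_singleton, Set.image_singleton]
      exact ⟨fun _ => Sum.inl e, fun _ => Sum.inl b, fun _ => Set.univ,
        fun _ => ⟨rfl, rfl, h⟩, fun i j hij => absurd (Subsingleton.elim i j) hij⟩)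
  obtain ⟨m', hm', hb'⟩ := h1
  rw [(hR.2 _)]
  refine ⟨m', hm', ?_⟩
  rw [hb', Set.union_singleton]

theorem chn (hTL : T_TL) (hRLS : T_RLS) (hLB : T_LB) (hLAML : T_LAML) (hLMS : T_LMS) : T_CHN := by
  intro M F N k X hR hX hstep hZ
  have hME : M.E = (F.E : Set ℕ) := hR.1
  have hfin : M.E.Finite := by rw [hME]; exact F.E.finite_toSet
  obtain ⟨B, I, J, hB, hI, hIB, hJ, hIk, hJk, hBJ, hno⟩ := hTL M N k X hfin hX hstep hZ
  obtain ⟨m, hm, rfl⟩ := (hR.2 B).1 hB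
  have hanti : ∀ i j, i ≤ j → j ≤ N → X j ⊆ X i := by
    intro i j hij
    induction hij with
    | refl => exact fun _ => subset_rfl
    | step _ ih => exact fun h => (hstep _ (by omega)).trans (ih (by omega))
  have ha : ∀ i ≤ N, ∀ e ∈ F.E, e ∉ F.base m → e ∈ X i → ∀ b ∈ F.base m, b ∉ X i →
      ¬ RIn (F.D m) Set.univ (Sum.inl e) (Sum.inl b) := by
    intro i hi e he heB heX b hb hbX h
    exact hno i hi e heX heB b hb hbX (reach_exchange hLB hR hm he heB hb h)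
  have hinl : ∀ i ≤ N, ∀ e ∈ F.E, ((Sum.inl e : Vx) ∈ Lv F m (X i) ↔ e ∉ X i) :=
    fun i hi e he => lv_inl (ha i hi) he
  have hmono : ∀ i j, i ≤ j → j ≤ N → Lv F m (X i) ⊆ Lv F m (X j) :=
    fun i j hij hj => lv_mono (hanti i j hij hj)
  have hIE : I ⊆ M.E := hI.trans Set.sdiff_subset
  have hIE' : ∀ x ∈ I, x ∈ F.E := fun x hx => by
    have := hIE hx
    rw [hME] at this
    exact this
  -- the rails
  have hlnk : Lnk (F.D m) k (F.src m ∩ Lv F m (X 0)) (F.snk m \ Lv F m (X N)) := by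
    have h1 := (hLB F m hm I J (fun x hx => ⟨hIE' x hx, fun h => Set.disjoint_left.1 hIB hx h⟩)
      (fun x hx => (hJ hx).1) (by rw [hIk, hJk])).1 (by
        obtain ⟨m', hm', hb'⟩ := (hR.2 _).1 hBJ
        exact ⟨m', hm', hb'⟩)
    rw [hIk] at h1
    refine h1.mono le_rfl ?_ ?_
    · rintro _ ⟨x, hx, rfl⟩
      refine ⟨⟨x, hIE' x hx, fun h => Set.disjoint_left.1 hIB hx h, rfl⟩, ?_⟩
      exact (hinl 0 (Nat.zero_le _) x (hIE' x hx)).2 (hI hx).2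
    · rintro _ ⟨x, hx, rfl⟩
      refine ⟨⟨x, (hJ hx).1, rfl⟩, fun h => ?_⟩
      exact (hinl N le_rfl x (base_subset (hJ hx).1)).1 h (hJ hx).2
  obtain ⟨len, r, hrails⟩ := hRLS _ _ _ _ hlnk
  refine ⟨m, fun i => Lv F m (X i), len, r, ⟨hm, fun i _ => fun x hx => hx.1, hmono,
    fun i _ x y h hy => lv_inc hm h hy, fun i hi v hv => lv_hub hm (ha i hi) hv, hrails, ?_⟩, hinl⟩
  -- the flow
  intro i hi hL
  obtain ⟨hXE, hXk⟩ := hX i hi
  have h1 := hLAML F M m hR hm (M.E \ X i) Set.sdiff_subset (k + 1) 0 (hL.mono le_rfl (by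
      rintro _ ⟨⟨e, he, heB, rfl⟩, h⟩
      exact ⟨e, ⟨⟨by rw [hME]; exact he, (hinl i hi e he).1 h⟩, heB⟩, rfl⟩) (by
      rintro _ ⟨⟨e, he, rfl⟩, h⟩
      refine ⟨e, ⟨he, fun h' => ?_⟩, rfl⟩
      exact h ((hinl i hi e (base_subset he)).2 h'.2))) lnk_zero
  rw [(hLMS M hfin).1 (X i) hXE, hXk] at h1
  omega

end Pool.Agent.H87.GW.CHN
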