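import Pool.Agent.H55.GW.Targets3

/-!
# Board wq, module IMA: the improved decomposition is a decomposition
-/

set_option autoImplicit false

namespace Pool.Agent.H87.GW.IMA

open Pool.Agent.H55.GW

theorem mem_impD (𝒟 : Set (Set ℕ)) (R S A X : Set ℕ) : X ∈ impD 𝒟 R S A ↔
    (X ∈ 𝒟 ∧ ¬ X ⊆ S) ∨ (X.Nonempty ∧ ∃ D ∈ 𝒟, D ⊆ S ∧ X = D ∩ A) ∨
    (X.Nonempty ∧ ∃ D ∈ 𝒟, D ⊆ S ∧ Disjoint D R ∧ X = D \ A) ∨
    ∃ D ∈ 𝒟, R ⊆ D ∧ D ⊆ S ∧ X = D ∪ A := by
  unfold impD
  simp only [Set.mem_union, Set.mem_setOf_eq, or_assoc]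

/-- laminar pair -/
def Lm (X Y : Set ℕ) : Prop := X ⊆ Y ∨ Y ⊆ X ∨ Disjoint X Y

theorem Lm.symm {X Y : Set ℕ} (h : Lm X Y) : Lm Y X := by
  rcases h with h | h | h
  · exact Or.inr (Or.inl h)
  · exact Or.inl h
  · exact Or.inr (Or.inr h.symm)

theorem ima : T_IMA := by
  intro f k E 𝒟 R S A hE hf hD hO
  obtain ⟨hR, hS, hRA, hAS, hmin, hlt, hspl⟩ := hO
  have hSE : S ⊆ E := hD.sub S hS
  have hAE : A ⊆ E := hAS.trans hSE
  have hRn : R.Nonempty := hD.ne R hR
  have hRS : R ⊆ S := hRA.trans hAS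
  have hSA : S ∪ A = S := Set.union_eq_left.2 hAS
  have hSm : S ∈ impD 𝒟 R S A := by
    rw [mem_impD]
    exact Or.inr (Or.inr (Or.inr ⟨S, hS, hRS, subset_rfl, hSA.symm⟩))
  have hfin : ∀ D ∈ 𝒟, D.Finite := fun D h => hE.subset (hD.sub D h)
  -- laminarity with type 1
  have h1x : ∀ D ∈ 𝒟, ¬ D ⊆ S → ∀ X ⊆ S, Lm D X := by
    intro D hDm hDS X hX
    rcases hD.lam D hDm S hS with h | h | h
    · exact absurd h hDS
    · exact Or.inr (Or.inl (hX.trans h))
    · exact Or.inr (Or.inr (h.mono_right hX))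
  have h34 : ∀ D ∈ 𝒟, Disjoint D R → ∀ D' ∈ 𝒟, R ⊆ D' → Lm (D \ A) (D' ∪ A) := by
    intro D hDm hDR D' hD' hRD'
    rcases hD.lam D hDm D' hD' with h | h | h
    · exact Or.inl (Set.diff_subset.trans (h.trans Set.subset_union_left))
    · exfalso
      obtain ⟨x, hx⟩ := hRn
      exact Set.disjoint_left.1 hDR (h (hRD' hx)) hx
    · refine Or.inr (Or.inr ?_)
      rw [Set.disjoint_union_right]
      exact ⟨h.mono_left Set.diff_subset, Set.disjoint_sdiff_left⟩
  have h44 : ∀ D ∈ 𝒟, R ⊆ D → ∀ D' ∈ 𝒟, R ⊆ D' → Lm (D ∪ A) (D' ∪ A) := by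
    intro D hDm hRD D' hD' hRD'
    rcases hD.lam D hDm D' hD' with h | h | h
    · exact Or.inl (Set.union_subset_union_left _ h)
    · exact Or.inr (Or.inl (Set.union_subset_union_left _ h))
    · exfalso
      obtain ⟨x, hx⟩ := hRn
      exact Set.disjoint_left.1 h (hRD hx) (hRD' hx)
  -- splitting
  have hsp2 : ∀ n : ℕ, ∀ D ∈ 𝒟, D.ncard = n → D ⊆ S → (D ∩ A).Nonempty →
      (∃ e, D ∩ A = {e}) ∨ ∃ D₁ ∈ impD 𝒟 R S A, ∃ D₂ ∈ impD 𝒟 R S A, Disjoint D₁ D₂ ∧
        D₁ ∪ D₂ = D ∩ A := by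
    intro n
    induction n using Nat.strong_induction_on with
    | _ n ih =>
      intro D hDm hn hDS hne
      rcases hD.split D hDm with ⟨e, rfl⟩ | ⟨D₁, h1, D₂, h2, h12, rfl⟩
      · left
        obtain ⟨x, hx1, hx2⟩ := hne
        rw [Set.mem_singleton_iff] at hx1
        subst hx1
        refine ⟨x, ?_⟩
        ext y
        simp only [Set.mem_inter_iff, Set.mem_singleton_iff]
        exact ⟨fun h => h.1, fun h => ⟨h, h ▸ hx2⟩⟩
      · have hc : (D₁ ∪ D₂).ncard = D₁.ncard + D₂.ncard :=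
          Set.ncard_union_eq h12 (hfin _ h1) (hfin _ h2)
        have hp1 : 0 < D₁.ncard := (Set.ncard_pos (hfin _ h1)).2 (hD.ne _ h1)
        have hp2 : 0 < D₂.ncard := (Set.ncard_pos (hfin _ h2)).2 (hD.ne _ h2)
        have hs1 : D₁ ⊆ S := Set.subset_union_left.trans hDS
        have hs2 : D₂ ⊆ S := Set.subset_union_right.trans hDS
        by_cases hn1 : (D₁ ∩ A).Nonempty
        · by_cases hn2 : (D₂ ∩ A).Nonempty
          · right
            refine ⟨D₁ ∩ A, ?_, D₂ ∩ A, ?_, ?_, ?_⟩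
            · rw [mem_impD]; exact Or.inr (Or.inl ⟨hn1, D₁, h1, hs1, rfl⟩)
            · rw [mem_impD]; exact Or.inr (Or.inl ⟨hn2, D₂, h2, hs2, rfl⟩)
            · exact h12.mono Set.inter_subset_left Set.inter_subset_left
            · rw [Set.union_inter_distrib_right]
          · have he : (D₁ ∪ D₂) ∩ A = D₁ ∩ A := by
              rw [Set.union_inter_distrib_right, Set.not_nonempty_iff_eq_empty.1 hn2,
                Set.union_empty]
            rw [he]
            exact ih D₁.ncard (by omega) D₁ h1 rfl hs1 hn1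
        · have he : (D₁ ∪ D₂) ∩ A = D₂ ∩ A := by
            rw [Set.union_inter_distrib_right, Set.not_nonempty_iff_eq_empty.1 hn1,
              Set.empty_union]
          rw [he] at hne ⊢
          exact ih D₂.ncard (by omega) D₂ h2 rfl hs2 hne
  have hsp3 : ∀ n : ℕ, ∀ D ∈ 𝒟, D.ncard = n → D ⊆ S → Disjoint D R → (D \ A).Nonempty →
      (∃ e, D \ A = {e}) ∨ ∃ D₁ ∈ impD 𝒟 R S A, ∃ D₂ ∈ impD 𝒟 R S A, Disjoint D₁ D₂ ∧
        D₁ ∪ D₂ = D \ A := by
    intro n
    induction n using Nat.strong_induction_on with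
    | _ n ih =>
      intro D hDm hn hDS hDR hne
      rcases hD.split D hDm with ⟨e, rfl⟩ | ⟨D₁, h1, D₂, h2, h12, rfl⟩
      · left
        obtain ⟨x, hx1, hx2⟩ := hne
        rw [Set.mem_singleton_iff] at hx1
        subst hx1
        refine ⟨x, ?_⟩
        ext y
        simp only [Set.mem_diff, Set.mem_singleton_iff]
        exact ⟨fun h => h.1, fun h => ⟨h, h ▸ hx2⟩⟩
      · have hc : (D₁ ∪ D₂).ncard = D₁.ncard + D₂.ncard :=
          Set.ncard_union_eq h12 (hfin _ h1) (hfin _ h2)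
        have hp1 : 0 < D₁.ncard := (Set.ncard_pos (hfin _ h1)).2 (hD.ne _ h1)
        have hp2 : 0 < D₂.ncard := (Set.ncard_pos (hfin _ h2)).2 (hD.ne _ h2)
        have hs1 : D₁ ⊆ S := Set.subset_union_left.trans hDS
        have hs2 : D₂ ⊆ S := Set.subset_union_right.trans hDS
        have hr1 : Disjoint D₁ R := hDR.mono_left Set.subset_union_left
        have hr2 : Disjoint D₂ R := hDR.mono_left Set.subset_union_right
        by_cases hn1 : (D₁ \ A).Nonempty
        · by_cases hn2 : (D₂ \ A).Nonempty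
          · right
            refine ⟨D₁ \ A, ?_, D₂ \ A, ?_, ?_, ?_⟩
            · rw [mem_impD]; exact Or.inr (Or.inr (Or.inl ⟨hn1, D₁, h1, hs1, hr1, rfl⟩))
            · rw [mem_impD]; exact Or.inr (Or.inr (Or.inl ⟨hn2, D₂, h2, hs2, hr2, rfl⟩))
            · exact h12.mono Set.diff_subset Set.diff_subset
            · rw [Set.union_diff_distrib]
          · have he : (D₁ ∪ D₂) \ A = D₁ \ A := by
              rw [Set.union_diff_distrib, Set.not_nonempty_iff_eq_empty.1 hn2,
                Set.union_empty]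
            rw [he]
            exact ih D₁.ncard (by omega) D₁ h1 rfl hs1 hr1 hn1
        · have he : (D₁ ∪ D₂) \ A = D₂ \ A := by
            rw [Set.union_diff_distrib, Set.not_nonempty_iff_eq_empty.1 hn1,
              Set.empty_union]
          rw [he] at hne ⊢
          exact ih D₂.ncard (by omega) D₂ h2 rfl hs2 hr2 hne
  -- one half of a split containing R
  have hstep : ∀ D₁ ∈ 𝒟, ∀ D₂ ∈ 𝒟, Disjoint D₁ D₂ → D₁ ∪ D₂ ⊆ S → R ⊆ D₁ →
      (D₂ \ A).Nonempty → (D₁ ∪ A) ∈ impD 𝒟 R S A ∧ (D₂ \ A) ∈ impD 𝒟 R S A ∧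
        Disjoint (D₁ ∪ A) (D₂ \ A) ∧ (D₁ ∪ A) ∪ (D₂ \ A) = (D₁ ∪ D₂) ∪ A := by
    intro D₁ h1 D₂ h2 h12 hs hR1 hne
    refine ⟨?_, ?_, ?_, ?_⟩
    · rw [mem_impD]
      exact Or.inr (Or.inr (Or.inr ⟨D₁, h1, hR1, Set.subset_union_left.trans hs, rfl⟩))
    · rw [mem_impD]
      exact Or.inr (Or.inr (Or.inl ⟨hne, D₂, h2, Set.subset_union_right.trans hs,
        (h12.mono_left hR1).symm, rfl⟩))
    · rw [Set.disjoint_union_left]
      exact ⟨h12.mono_right Set.diff_subset, Set.disjoint_sdiff_right⟩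
    · ext x
      simp only [Set.mem_union, Set.mem_diff]
      tauto
  have hsp4 : ∀ n : ℕ, ∀ D ∈ 𝒟, D.ncard = n → D ⊆ S → R ⊆ D →
      (∃ e, D ∪ A = {e}) ∨ ∃ D₁ ∈ impD 𝒟 R S A, ∃ D₂ ∈ impD 𝒟 R S A, Disjoint D₁ D₂ ∧
        D₁ ∪ D₂ = D ∪ A := by
    intro n
    induction n using Nat.strong_induction_on with
    | _ n ih =>
      intro D hDm hn hDS hRD
      by_cases hDR : D = R
      · have e1 : D ∪ A = S ∩ A := by
          rw [hDR, Set.union_eq_right.2 hRA, Set.inter_eq_right.2 hAS]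
        rw [e1]
        refine hsp2 _ S hS rfl subset_rfl ?_
        rw [Set.inter_eq_right.2 hAS]
        exact hRn.mono hRA
      · rcases hD.split D hDm with ⟨e, rfl⟩ | ⟨D₁, h1, D₂, h2, h12, rfl⟩
        · exfalso
          apply hDR
          obtain ⟨x, hx⟩ := hRn
          have hxe : x = e := hRD hx
          subst hxe
          exact (Set.singleton_subset_iff.2 hx).antisymm hRD
        · have hc : (D₁ ∪ D₂).ncard = D₁.ncard + D₂.ncard :=
            Set.ncard_union_eq h12 (hfin _ h1) (hfin _ h2)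
          have hp1 : 0 < D₁.ncard := (Set.ncard_pos (hfin _ h1)).2 (hD.ne _ h1)
          have hp2 : 0 < D₂.ncard := (Set.ncard_pos (hfin _ h2)).2 (hD.ne _ h2)
          have hs1 : D₁ ⊆ S := Set.subset_union_left.trans hDS
          have hs2 : D₂ ⊆ S := Set.subset_union_right.trans hDS
          have hor : R ⊆ D₁ ∨ R ⊆ D₂ := by
            rcases hD.lam R hR D₁ h1 with h | h | h
            · exact Or.inl h
            · rcases hD.lam R hR D₂ h2 with g | g | g
              · exact Or.inr g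
              · exact absurd ((Set.union_subset h g).antisymm hRD) hDR
              · left
                intro x hx
                rcases hRD hx with hx' | hx'
                · exact hx'
                · exact absurd hx' (Set.disjoint_left.1 g hx)
            · right
              intro x hx
              rcases hRD hx with hx' | hx'
              · exact absurd hx' (Set.disjoint_left.1 h hx)
              · exact hx'
          rcases hor with hR1 | hR2
          · by_cases hne : (D₂ \ A).Nonempty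
            · right
              obtain ⟨a1, a2, a3, a4⟩ := hstep D₁ h1 D₂ h2 h12 hDS hR1 hne
              exact ⟨_, a1, _, a2, a3, a4⟩
            · have hsub : D₂ ⊆ A := Set.diff_eq_empty.1 (Set.not_nonempty_iff_eq_empty.1 hne)
              have he : (D₁ ∪ D₂) ∪ A = D₁ ∪ A := by
                rw [Set.union_assoc, Set.union_eq_right.2 hsub]
              rw [he]
              exact ih D₁.ncard (by omega) D₁ h1 rfl hs1 hR1
          · by_cases hne : (D₁ \ A).Nonempty
            · right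
              obtain ⟨a1, a2, a3, a4⟩ := hstep D₂ h2 D₁ h1 h12.symm
                (by rw [Set.union_comm]; exact hDS) hR2 hne
              exact ⟨_, a1, _, a2, a3, by rw [a4, Set.union_comm D₂ D₁]⟩
            · have hsub : D₁ ⊆ A := Set.diff_eq_empty.1 (Set.not_nonempty_iff_eq_empty.1 hne)
              have he : (D₁ ∪ D₂) ∪ A = D₂ ∪ A := by
                rw [Set.union_comm D₁ D₂, Set.union_assoc, Set.union_eq_right.2 hsub]
              rw [he]
              exact ih D₂.ncard (by omega) D₂ h2 rfl hs2 hR2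
  -- halves of type 1
  have hhalf : ∀ D₁ ∈ 𝒟, ∀ D₂ ∈ 𝒟, Disjoint D₁ D₂ → D₁ ∪ D₂ ∈ 𝒟 → ¬ D₁ ∪ D₂ ⊆ S →
      D₁ ∈ impD 𝒟 R S A := by
    intro D₁ h1 D₂ h2 h12 hDm hDS
    by_cases hs : D₁ ⊆ S
    · have hd2 : Disjoint S D₂ := by
        rcases hD.lam S hS D₂ h2 with h | h | h
        · exfalso
          obtain ⟨x, hx⟩ := hD.ne _ h1
          exact Set.disjoint_left.1 h12 hx (h (hs hx))
        · exact absurd (Set.union_subset hs h) hDS
        · exact h
      have hSD : S ⊆ D₁ ∪ D₂ := by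
        rcases hD.lam S hS _ hDm with h | h | h
        · exact h
        · exact absurd h hDS
        · exfalso
          obtain ⟨x, hx⟩ := hD.ne _ h1
          exact Set.disjoint_left.1 h (hs hx) (Or.inl hx)
      have : D₁ = S := by
        refine hs.antisymm fun x hx => ?_
        rcases hSD hx with h | h
        · exact h
        · exact absurd h (Set.disjoint_left.1 hd2 hx)
      rw [this]; exact hSm
    · rw [mem_impD]
      exact Or.inl ⟨h1, hs⟩
  -- the width
  have hk : f A ≤ k := ((hlt R hR subset_rfl hRS).trans_le (hD.le R hR)).le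
  refine ⟨?_, ?_, ?_, ?_, ?_, ?_⟩
  · -- top
    by_cases hES : E ⊆ S
    · rw [hES.antisymm hSE]; exact hSm
    · rw [mem_impD]; exact Or.inl ⟨hD.top, hES⟩
  · -- ne
    intro X hX
    rw [mem_impD] at hX
    rcases hX with ⟨h, _⟩ | ⟨h, _⟩ | ⟨h, _⟩ | ⟨D, hDm, _, _, rfl⟩
    · exact hD.ne _ h
    · exact h
    · exact h
    · exact (hD.ne _ hDm).mono Set.subset_union_left
  · -- sub
    intro X hX
    rw [mem_impD] at hX
    rcases hX with ⟨h, _⟩ | ⟨_, D, _, _, rfl⟩ | ⟨_, D, hDm, _, _, rfl⟩ | ⟨D, hDm, _, _, rfl⟩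
    · exact hD.sub _ h
    · exact Set.inter_subset_right.trans hAE
    · exact Set.diff_subset.trans (hD.sub _ hDm)
    · exact Set.union_subset (hD.sub _ hDm) hAE
  · -- lam
    intro X hX Y hY
    change Lm X Y
    rw [mem_impD] at hX hY
    rcases hX with ⟨hX, hXS⟩ | ⟨_, D, hDm, hDS, rfl⟩ | ⟨_, D, hDm, hDS, hDR, rfl⟩ |
      ⟨D, hDm, hRD, hDS, rfl⟩
    · rcases hY with ⟨hY, hYS⟩ | ⟨_, D', hDm', hDS', rfl⟩ | ⟨_, D', hDm', hDS', hDR', rfl⟩ |
        ⟨D', hDm', hRD', hDS', rfl⟩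
      · exact hD.lam X hX Y hY
      · exact h1x X hX hXS _ (Set.inter_subset_left.trans hDS')
      · exact h1x X hX hXS _ (Set.diff_subset.trans hDS')
      · exact h1x X hX hXS _ (Set.union_subset hDS' hAS)
    · rcases hY with ⟨hY, hYS⟩ | ⟨_, D', hDm', hDS', rfl⟩ | ⟨_, D', hDm', hDS', hDR', rfl⟩ |
        ⟨D', hDm', hRD', hDS', rfl⟩
      · exact (h1x Y hY hYS _ (Set.inter_subset_left.trans hDS)).symm
      · rcases hD.lam D hDm D' hDm' with h | h | h
        · exact Or.inl (Set.inter_subset_inter_left _ h)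
        · exact Or.inr (Or.inl (Set.inter_subset_inter_left _ h))
        · exact Or.inr (Or.inr (h.mono Set.inter_subset_left Set.inter_subset_left))
      · exact Or.inr (Or.inr (Set.disjoint_sdiff_right.mono_left Set.inter_subset_right))
      · exact Or.inl (Set.inter_subset_right.trans Set.subset_union_right)
    · rcases hY with ⟨hY, hYS⟩ | ⟨_, D', hDm', hDS', rfl⟩ | ⟨_, D', hDm', hDS', hDR', rfl⟩ |
        ⟨D', hDm', hRD', hDS', rfl⟩
      · exact (h1x Y hY hYS _ (Set.diff_subset.trans hDS)).symm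
      · exact Or.inr (Or.inr (Set.disjoint_sdiff_right.mono_left Set.inter_subset_right).symm)
      · rcases hD.lam D hDm D' hDm' with h | h | h
        · exact Or.inl (Set.diff_subset_diff_left h)
        · exact Or.inr (Or.inl (Set.diff_subset_diff_left h))
        · exact Or.inr (Or.inr (h.mono Set.diff_subset Set.diff_subset))
      · exact h34 D hDm hDR D' hDm' hRD'
    · rcases hY with ⟨hY, hYS⟩ | ⟨_, D', hDm', hDS', rfl⟩ | ⟨_, D', hDm', hDS', hDR', rfl⟩ |
        ⟨D', hDm', hRD', hDS', rfl⟩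
      · exact (h1x Y hY hYS _ (Set.union_subset hDS hAS)).symm
      · exact Or.inr (Or.inl (Set.inter_subset_right.trans Set.subset_union_right))
      · exact (h34 D' hDm' hDR' D hDm hRD).symm
      · exact h44 D hDm hRD D' hDm' hRD'
  · -- split
    intro X hX
    have hX' := hX
    rw [mem_impD] at hX
    rcases hX with ⟨hX, hXS⟩ | ⟨hne, D, hDm, hDS, rfl⟩ | ⟨hne, D, hDm, hDS, hDR, rfl⟩ |
      ⟨D, hDm, hRD, hDS, rfl⟩
    · rcases hD.split X hX with h | ⟨D₁, h1, D₂, h2, h12, rfl⟩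
      · exact Or.inl h
      · right
        refine ⟨D₁, hhalf D₁ h1 D₂ h2 h12 hX hXS, D₂, ?_, h12, rfl⟩
        refine hhalf D₂ h2 D₁ h1 h12.symm ?_ ?_
        · rw [Set.union_comm]; exact hX
        · rw [Set.union_comm]; exact hXS
    · exact hsp2 _ D hDm rfl hDS hne
    · exact hsp3 _ D hDm rfl hDS hDR hne
    · exact hsp4 _ D hDm rfl hDS hRD
  · -- le
    intro X hX
    rw [mem_impD] at hX
    rcases hX with ⟨hX, hXS⟩ | ⟨hne, D, hDm, hDS, rfl⟩ | ⟨hne, D, hDm, hDS, hDR, rfl⟩ |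
      ⟨D, hDm, hRD, hDS, rfl⟩
    · exact hD.le X hX
    · have h1 := hD.le D hDm
      have h2 := hf.2 D (hD.sub D hDm) A hAE
      rcases hD.lam D hDm R hR with h | h | h
      · rw [Set.inter_eq_left.2 (h.trans hRA)]
        exact h1
      · have h3 := hmin (D ∪ A) (h.trans Set.subset_union_left) (Set.union_subset hDS hAS)
        omega
      · have h3 := hmin (D ∪ A) (hRA.trans Set.subset_union_right)
          (Set.union_subset hDS hAS)
        omega
    · have h1 := hD.le D hDm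
      have h3 := hmin (A \ D) (fun x hx => ⟨hRA hx, fun h => Set.disjoint_left.1 hDR h hx⟩)
        (Set.diff_subset.trans hAS)
      have h2 := hf.2 A hAE (E \ D) Set.diff_subset
      have e1 : A ∪ E \ D = E \ (D \ A) := by
        ext x
        simp only [Set.mem_union, Set.mem_diff]
        constructor
        · rintro (h | h)
          · exact ⟨hAE h, fun h' => h'.2 h⟩
          · exact ⟨h.1, fun h' => h.2 h'.1⟩
        · rintro ⟨h, h'⟩
          by_cases hx : x ∈ A
          · exact Or.inl hx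
          · exact Or.inr ⟨h, fun h'' => h' ⟨h'', hx⟩⟩
      have e2 : A ∩ (E \ D) = A \ D := by
        ext x
        simp only [Set.mem_inter_iff, Set.mem_diff]
        exact ⟨fun h => ⟨h.1, h.2.2⟩, fun h => ⟨h.1, hAE h.1, h.2⟩⟩
      rw [e1, e2, hf.1 D (hD.sub D hDm),
        hf.1 (D \ A) (Set.diff_subset.trans (hD.sub D hDm))] at h2
      omega
    · have h1 := hD.le D hDm
      have h2 := hf.2 D (hD.sub D hDm) A hAE
      have h3 := hmin (D ∩ A) (Set.subset_inter hRD hRA) (Set.inter_subset_left.trans hDS)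
      omega

end Pool.Agent.H87.GW.IMA

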