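import Pool.Agent.H55.GW.Targets3

/-!
# Board wq, module TLA: Tutte's linking lemma
-/

set_option autoImplicit false

namespace Pool.Agent.H87.GW.TLA

open Pool.Agent.H55.GW

theorem tla (htut : T_TUT) : T_TLA := by
  intro M P₁ P₂ k hfin h1 h2 h12 hZ
  rcases Nat.eq_zero_or_pos k with rfl | hk
  · exact ⟨∅, Set.empty_subset _, Nat.zero_le _⟩
  obtain ⟨k', rfl⟩ : ∃ k', k = k' + 1 := ⟨k - 1, by omega⟩
  clear hk
  generalize hn : (M.E \ (P₁ ∪ P₂)).ncard = n
  induction n generalizing M with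
  | zero =>
    have he : M.E \ (P₁ ∪ P₂) = ∅ := by
      rw [Set.ncard_eq_zero (hfin.subset Set.sdiff_subset)] at hn
      exact hn
    have he' : M.E = P₁ ∪ P₂ := (Set.sdiff_eq_empty.1 he).antisymm (Set.union_subset h1 h2)
    refine ⟨∅, Set.empty_subset _, ?_⟩
    rw [Matroid.contract_empty, ← he', Matroid.restrict_ground_eq_self]
    exact hZ P₁ h1 subset_rfl h12.symm
  | succ n ih =>
    have hne : (M.E \ (P₁ ∪ P₂)).Nonempty := by
      rw [← Set.ncard_pos (hfin.subset Set.sdiff_subset)]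
      omega
    obtain ⟨e, heE, heP⟩ := hne
    have h1' : P₁ ⊆ M.E \ {e} := fun x hx => ⟨h1 hx, fun h => heP (Or.inl (by rwa [← h]))⟩
    have h2' : P₂ ⊆ M.E \ {e} := fun x hx => ⟨h2 hx, fun h => heP (Or.inr (by rwa [← h]))⟩
    have hcard : ((M.E \ {e}) \ (P₁ ∪ P₂)).ncard = n := by
      have : (M.E \ {e}) \ (P₁ ∪ P₂) = (M.E \ (P₁ ∪ P₂)) \ {e} := by
        ext x
        simp only [Set.mem_sdiff]
        tauto
      rw [this]
      have := Set.ncard_sdiff_singleton_of_mem (show e ∈ M.E \ (P₁ ∪ P₂) from ⟨heE, heP⟩)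
      omega
    by_cases hdel : ∀ Z ⊆ M.E \ {e}, P₁ ⊆ Z → Disjoint P₂ Z → k' + 1 ≤ lam (M.delete {e}) Z
    · obtain ⟨C, hC, hlam⟩ := ih (M.delete {e}) (hfin.subset Set.sdiff_subset) h1' h2' hdel
        hcard
      have hC' : C ⊆ M.E \ (P₁ ∪ P₂) := fun x hx => ⟨(hC hx).1.1, (hC hx).2⟩
      have heC : e ∉ C := fun h => (hC h).1.2 rfl
      refine ⟨C, hC', ?_⟩
      have e1 : ((M.delete {e}).contract C).restrict (P₁ ∪ P₂) =
          (M.contract C).restrict (P₁ ∪ P₂) := by
        rw [← Matroid.contract_delete_comm M (Set.disjoint_singleton_right.2 heC),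
          Matroid.delete_eq_restrict, Matroid.restrict_restrict_eq]
        intro x hx
        refine ⟨⟨?_, ?_⟩, ?_⟩
        · rcases hx with hx | hx
          · exact h1 hx
          · exact h2 hx
        · exact fun h => (hC h).2 hx
        · rintro rfl
          exact heP hx
      rwa [e1] at hlam
    · by_cases hcon : ∀ Z ⊆ M.E \ {e}, P₁ ⊆ Z → Disjoint P₂ Z →
          k' + 1 ≤ lam (M.contract {e}) Z
      · obtain ⟨C, hC, hlam⟩ := ih (M.contract {e}) (hfin.subset Set.sdiff_subset) h1' h2' hcon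
          hcard
        refine ⟨{e} ∪ C, ?_, ?_⟩
        · rintro x (hx | hx)
          · rw [Set.mem_singleton_iff] at hx
            subst hx
            exact ⟨heE, heP⟩
          · exact ⟨(hC hx).1.1, (hC hx).2⟩
        · rw [← Matroid.contract_contract]
          exact hlam
      · exfalso
        push Not at hdel hcon
        obtain ⟨Z, hZ1, hZ2, hZ3, hZ4⟩ := hdel
        obtain ⟨Z', hZ1', hZ2', hZ3', hZ4'⟩ := hcon
        obtain ⟨Z'', a1, a2, a3, a4⟩ := htut M hfin e heE P₁ P₂ k' h1' h2'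
          ⟨Z, hZ1, hZ2, hZ3, by omega⟩ ⟨Z', hZ1', hZ2', hZ3', by omega⟩
        have := hZ Z'' a1 a2 a3
        omega

end Pool.Agent.H87.GW.TLA
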